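import Pool.Agent.Lib.MP_edb5be_nt.PD.Iface

/-!
Project PD (MP_edb5be_nt), third part: corollaries (antichains, residues, cycles; idea of helper57).
Proofs on paper: `Pool/Agent/Lib/MP_edb5be_nt/PD/Paper3.md`.
-/

set_option autoImplicit false

namespace Pool.Agent.Lib.MP_edb5be_nt.PD

open Finset Pool.Agent.Lib.MP_edb5be_nt.EX Pool.Agent.Lib.MP_0a5adf_nt.TP

/-- The predecessors of `y`. -/
def Pr (y : ℤ) : Set ℤ := {n : ℤ | ∃ i : ℕ, Tc^[i] n = y}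

/-- The grand orbit of `x`. -/
def GO (x : ℤ) : Set ℤ := {n : ℤ | ∃ j k : ℕ, Tc^[j] n = Tc^[k] x}

/-- PRD: existence of the densities of the sets of predecessors, and the lower bound. -/
def PrdStatement : Prop :=
  ∃ c : ℝ, 0 < c ∧ ∀ (d : Bool) (x : ℤ), ∃ D : ℝ, ND.HasDens d (Pr x) D ∧ 0 ≤ D ∧ D ≤ 1 ∧
    (¬ (3 : ℤ) ∣ x → 0 < sg d * x → c / |(x : ℝ)| ≤ D)

/-- ANTI: pairwise disjoint sets of predecessors. -/
def AntiStatement : Prop :=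
  ∃ c : ℝ, 0 < c ∧ ∀ (d : Bool) (Y : Finset ℤ) (S : Set ℤ) (D : ℝ), ND.HasDens d S D →
    (∀ y ∈ Y, ¬ (3 : ℤ) ∣ y ∧ 0 < sg d * y ∧ Pr y ⊆ S) →
    (∀ y ∈ Y, ∀ y' ∈ Y, y ≠ y' → Disjoint (Pr y) (Pr y')) → ∑ y ∈ Y, c / |(y : ℝ)| ≤ D

/-- RESI: the odd terms of any trajectory. -/
def ResiStatement : Prop :=
  ∃ C : ℝ, 0 < C ∧ ∀ (x : ℤ) (Z : Finset ℤ),
    (∀ y ∈ Z, y % 2 = 1 ∧ ∃ i : ℕ, Tc^[i] x = y) → ∑ y ∈ Z, 1 / |(y : ℝ)| ≤ C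

open Classical in
/-- RATIO: a trajectory without repetitions is determined, up to an absolute constant factor, by its
number of odd terms. -/
def RatioStatement : Prop :=
  ∃ C : ℝ, 0 < C ∧ ∀ (x : ℤ) (n : ℕ), x ≠ 0 → (∀ i j, i < j → j < n → Tc^[i] x ≠ Tc^[j] x) →
    2 ^ n * |((Tc^[n] x : ℤ) : ℝ)| ≤
      C * (3 ^ ((range n).filter fun i => Tc^[i] x % 2 = 1).card * |(x : ℝ)|) ∧
    3 ^ ((range n).filter fun i => Tc^[i] x % 2 = 1).card * |(x : ℝ)| ≤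
      C * (2 ^ n * |((Tc^[n] x : ℤ) : ℝ)|)

/-- CYC: the density of the basin of a cycle. -/
def CycStatement : Prop :=
  ∃ c : ℝ, 0 < c ∧ ∀ (d : Bool) (x : ℤ) (p : ℕ) (D : ℝ) (Z : Finset ℤ), 1 ≤ p →
    Tc^[p] x = x → 0 < sg d * x → ND.HasDens d (GO x) D →
    (∀ y ∈ Z, y % 2 = 1 ∧ ∃ i : ℕ, Tc^[i] x = y) → ∑ y ∈ Z, c / |(y : ℝ)| ≤ D

open Classical in
/-- LINF: the density of the basin of a cycle with `k` odd terms and length `p`. -/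
def LinfStatement : Prop :=
  ∃ c : ℝ, 0 < c ∧ ∀ (d : Bool) (x : ℤ) (p : ℕ) (D : ℝ), 1 ≤ p → Tc^[p] x = x →
    (∀ i j, i < j → j < p → Tc^[i] x ≠ Tc^[j] x) → 0 < sg d * x → ND.HasDens d (GO x) D →
    c * |p * Real.log 2 - ((range p).filter fun i => Tc^[i] x % 2 = 1).card * Real.log 3| ≤ D

/-- GOD: densities of the grand orbits. -/
def GodStatement : Prop :=
  ∃ c : ℝ, 0 < c ∧ ∀ (d : Bool) (x : ℤ) (D : ℝ), 0 < sg d * x → ND.HasDens d (GO x) D →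
    c / |(x : ℝ)| ≤ D

/-- ALLS: an invariant set of density one contains everything; more precisely. -/
def AllSStatement : Prop :=
  ∃ c : ℝ, 0 < c ∧ ∀ (d : Bool) (S : Set ℤ) (D : ℝ) (x : ℤ), (∀ y : ℤ, y ∈ S ↔ Tc y ∈ S) →
    ND.HasDens d S D → 0 < sg d * x → x ∉ S → D ≤ 1 - c / |(x : ℝ)|

end Pool.Agent.Lib.MP_edb5be_nt.PD
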