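import Pool.Agent.Lib.MP_edb5be_nt.EX.Defs

/-!
Project PD (MP_edb5be_nt): every integer prime to 3 is reached by a positive proportion of all
integers. Definitions. (`cc`, `wds`, `Tc` are those of the project EX.)
-/

set_option autoImplicit false

namespace Pool.Agent.Lib.MP_edb5be_nt.PD

open Finset Pool.Agent.Lib.MP_edb5be_nt.EX

/-- The word `u` is admissible at `y`: `(2 ^ |u| y - cc u) / 3 ^ length` is an integer. -/
def Ad (y : ℤ) (u : List ℕ) : Prop := (3 : ℤ) ^ u.length ∣ 2 ^ u.sum * y - cc u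

instance (y : ℤ) : DecidablePred (Ad y) := fun u =>
  inferInstanceAs (Decidable ((3 : ℤ) ^ u.length ∣ 2 ^ u.sum * y - cc u))

/-- The end of the word `u` from `y`. -/
def zz (y : ℤ) (u : List ℕ) : ℤ := (2 ^ u.sum * y - cc u) / 3 ^ u.length

/-- The weight of a word. -/
noncomputable def wt (u : List ℕ) : ℝ := 3 ^ u.length / 2 ^ u.sum

/-- The weighted sum of `f` over the ends of the words of `U`. -/
noncomputable def su (U : Finset (List ℕ)) (f : ℤ → ℝ) (y : ℤ) : ℝ :=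
  ∑ u ∈ U.filter (Ad y), wt u * f (zz y u)

/-- The probability of the words of `U`. -/
noncomputable def pr (U : Finset (List ℕ)) : ℝ := ∑ u ∈ U, (1 : ℝ) / 2 ^ u.sum

/-- Concatenations. -/
def cat (U V : Finset (List ℕ)) : Finset (List ℕ) := (U ×ˢ V).image fun p => p.1 ++ p.2

/-- The words of length `h` with sum at most `4 h`. -/
def Uw (h : ℕ) : Finset (List ℕ) := (wds (4 * h) h).filter fun u => u.sum ≤ 4 * h

/-- The words of length `h` with sum between `1.99 h` and `2.01 h`. -/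
def Rw (h : ℕ) : Finset (List ℕ) :=
  (wds (4 * h) h).filter fun u => 199 * h ≤ 100 * u.sum ∧ 100 * u.sum ≤ 201 * h

/-- The density at level `J`. -/
noncomputable def Fd (J : ℕ) (y : ℤ) : ℝ := su (Uw J) (fun _ => 1) y

/-- Sets of words of length `n`. -/
structure GW (Γ : ℝ) (n : ℕ) (W : Finset (List ℕ)) : Prop where
  len : ∀ u ∈ W, u.length = n
  pos : ∀ u ∈ W, ∀ a ∈ u, 1 ≤ a
  lo : ∀ u ∈ W, 199 * n ≤ 100 * u.sum
  hi : ∀ u ∈ W, 100 * u.sum ≤ 201 * n
  cb : ∀ u ∈ W, (cc u : ℝ) ≤ Γ * 2 ^ u.sum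

/-- The scales. -/
def nn (N : ℕ) : ℕ → ℕ
  | 0 => N
  | t + 1 => nn N t + nn N t / 20

/-- The sets of words. -/
def WW (Γ N : ℕ) : ℕ → Finset (List ℕ)
  | 0 => (Rw N).filter fun u => cc u ≤ Γ * 2 ^ u.sum
  | t + 1 => cat (WW Γ N t) (Rw (nn N t / 20))

end Pool.Agent.Lib.MP_edb5be_nt.PD
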