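import Pool.Agent.Lib.MP_edb5be_nt.PD.Defs
import Pool.Agent.Lib.MP_edb5be_nt.EX.Iface2
import Pool.Agent.Lib.MP_edb5be_nt.ND.Iface2

/-!
Project PD (MP_edb5be_nt): statements of the modules.
Proofs on paper: `Pool/Agent/Lib/MP_edb5be_nt/PD/Paper.md`.
-/

set_option autoImplicit false

namespace Pool.Agent.Lib.MP_edb5be_nt.PD

open Finset Pool.Agent.Lib.MP_edb5be_nt.EX

/-- MEAN: the sums over the residues. -/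
def MeanStatement : Prop :=
  ∀ (n J : ℕ) (U : Finset (List ℕ)) (f : ℤ → ℝ), (∀ u ∈ U, u.length = n) →
    (∀ x, f (x + 3 ^ J) = f x) →
    (∀ y, su U f (y + 3 ^ (n + J)) = su U f y) ∧
    ∑ y ∈ range (3 ^ (n + J)), su U f y = 3 ^ n * pr U * ∑ x ∈ range (3 ^ J), f x

/-- COMP: concatenation. -/
def CompStatement : Prop :=
  ∀ (n j : ℕ) (U V : Finset (List ℕ)) (f : ℤ → ℝ) (y : ℤ), (∀ u ∈ U, u.length = n) →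
    (∀ v ∈ V, v.length = j) → su (cat U V) f y = su U (su V f) y

/-- DENS: at a fixed integer `y`, the ends of the words with a given sum are distinct integers of a
short interval. -/
def DensStatement : Prop :=
  ∀ (Γ : ℝ) (n J : ℕ) (W : Finset (List ℕ)) (f : ℤ → ℝ) (y : ℤ), 0 ≤ Γ → GW Γ n W → 4 * J ≤ n →
    (∀ x, 0 ≤ f x) → (∀ x, f (x + 3 ^ J) = f x) →
    su W f y ≤ (Γ + 1) * (n + 1) * ((∑ x ∈ range (3 ^ J), f x) / 3 ^ J)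

/-- GCAT: the conditions `GW` for concatenations. -/
def GCatStatement : Prop :=
  ∀ (Γ : ℝ) (n j : ℕ) (W : Finset (List ℕ)), 0 ≤ Γ → GW Γ n W → 10 * j ≤ n →
    GW (Γ + (4 / 5) ^ n) (n + j) (cat W (Rw j))

/-- MIX: mixing, with any power of the level. -/
def MixStatement : Prop :=
  ∀ A : ℕ, ∃ C : ℝ, 0 < C ∧ ∀ n m : ℕ, 1 ≤ n → n ≤ m →
    ∑ x ∈ range (3 ^ m), |Fd m x - Fd n x| ≤ C / n ^ A * 3 ^ m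

/-- TAIL: the sum of a word. -/
def TailStatement : Prop :=
  (∀ A h : ℕ, pr (wds A h) = (1 - 1 / 2 ^ A) ^ h) ∧
  ∃ θ : ℝ, 0 < θ ∧ θ < 1 ∧ ∀ A h : ℕ,
    pr ((wds A h).filter fun u => ¬ (199 * h ≤ 100 * u.sum ∧ 100 * u.sum ≤ 201 * h)) ≤
      2 * h * θ ^ h

/-- CCT: the numerators are rarely large. -/
def CcTStatement : Prop :=
  ∀ (Γ A h : ℕ), 1 ≤ Γ →
    pr ((wds A h).filter fun u => ¬ (cc u ≤ Γ * 2 ^ u.sum)) ≤ 11 / √Γ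

/-- SPLIT: the density at level `j + J` and the words of `Rw j`. -/
def SplitStatement : Prop :=
  ∃ K θ : ℝ, 0 < K ∧ 0 < θ ∧ θ < 1 ∧ ∀ j J : ℕ, ∃ g : ℤ → ℝ, (∀ x, 0 ≤ g x) ∧
    (∀ x, g (x + 3 ^ (j + J)) = g x) ∧
    (∑ x ∈ range (3 ^ (j + J)), g x) / 3 ^ (j + J) ≤ K * (j * θ ^ j + J * θ ^ J) ∧
    ∀ x, Fd (j + J) x ≤ su (Rw j) (Fd J) x + g x

/-- STEP: one step. -/
def StepStatement : Prop :=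
  ∃ K θ : ℝ, 0 < K ∧ 0 < θ ∧ θ < 1 ∧
    ∀ (Γ : ℝ) (n J j J' : ℕ) (W : Finset (List ℕ)) (y : ℤ), 0 ≤ Γ → GW Γ n W → 1 ≤ J →
      J ≤ j + J' → 4 * (j + J') ≤ n →
      su W (Fd J) y - K * (Γ + 1) * (n + 1) * (1 / J ^ 3 + j * θ ^ j + J' * θ ^ J') ≤
        su (cat W (Rw j)) (Fd J') y

/-- WGW: the sets `WW` satisfy `GW`. -/
def WGwStatement : Prop :=
  ∀ Γ N t : ℕ, 20 ≤ N → GW (Γ + 1) (nn N t) (WW Γ N t)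

/-- INDUCT: all scales. -/
def InductStatement : Prop :=
  ∀ Γ : ℕ, ∃ N₀ : ℕ, ∀ N : ℕ, N₀ ≤ N → ∀ y : ℤ, 8 / 10 ≤ su (WW Γ N 0) (Fd (N / 20)) y →
    ∀ t : ℕ, 7 / 10 ≤ su (WW Γ N t) (Fd (nn N t / 20)) y

/-- BASE: a good residue class. -/
def BaseStatement : Prop :=
  ∃ Γ N₁ : ℕ, ∀ N : ℕ, N₁ ≤ N → ∃ y₀ : ℤ, ¬ (3 : ℤ) ∣ y₀ ∧
    ∀ y : ℤ, (3 : ℤ) ^ (N + N / 20) ∣ y - y₀ → 8 / 10 ≤ su (WW Γ N 0) (Fd (N / 20)) y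

/-- CLASS: a residue class in which the sums do not tend to zero. -/
def ClassStatement : Prop :=
  ∃ (Γ N k : ℕ) (y₀ : ℤ), 20 ≤ N ∧ ¬ (3 : ℤ) ∣ y₀ ∧ ∀ y : ℤ, (3 : ℤ) ^ k ∣ y - y₀ → ∀ t : ℕ,
    GW (Γ + 1) (nn N t) (WW Γ N t) ∧ 7 / 10 ≤ su (WW Γ N t) (Fd (nn N t / 20)) y

/-- LEVELS: all levels of an interval. -/
def LevelsStatement : Prop :=
  ∃ (Γ k : ℕ) (y₀ : ℤ), ¬ (3 : ℤ) ∣ y₀ ∧ ∀ y : ℤ, (3 : ℤ) ^ k ∣ y - y₀ → ∀ M : ℕ, ∃ n : ℕ,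
    M ≤ n ∧ ∀ m : ℕ, n + n / 20 ≤ m → m ≤ n + n / 10 → ∃ W : Finset (List ℕ),
      GW Γ m W ∧ 1 / 2 ≤ su W (fun _ => 1) y

/-- CHILD: every integer prime to 3 has a predecessor in the class which is not periodic. -/
def ChildStatement : Prop :=
  ∀ (k : ℕ) (y₀ : ℤ), ∃ K : ℕ, ∀ x : ℤ, ¬ (3 : ℤ) ∣ x → ∃ z : ℤ, (3 : ℤ) ^ k ∣ z - y₀ ∧
    |z| ≤ K * |x| ∧ (∃ a : ℕ, Tc^[a] z = x) ∧ ∀ p : ℕ, 1 ≤ p → Tc^[p] z ≠ z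

/-- INJ: different words lead to different integers. -/
def InjStatement : Prop :=
  ∀ y : ℤ, (∀ p : ℕ, 1 ≤ p → Tc^[p] y ≠ y) → ∀ u u' : List ℕ, (∀ a ∈ u, 1 ≤ a) →
    (∀ a ∈ u', 1 ≤ a) → Ad y u → Ad y u' → zz y u = zz y u' → u = u'

/-- NODE: the size of the ends. -/
def NodeStatement : Prop :=
  ∀ (Γ : ℝ) (n : ℕ) (W : Finset (List ℕ)) (y : ℤ) (u : List ℕ), 0 ≤ Γ → GW Γ n W → u ∈ W →
    Ad y u → Tc^[u.sum] (zz y u) = y ∧ |(zz y u : ℝ)| * wt u ≤ |(y : ℝ)| + Γ ∧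
      |(zz y u : ℝ)| ≤ (|(y : ℝ)| + Γ) * 2 ^ n

/-- LOGD: upper bound for logarithmic sums. -/
def LogDStatement : Prop :=
  ∀ (B : Set ℕ) (D δ : ℝ), ND.HasDensN B D → D < δ → ∃ C : ℝ, ∀ (R : ℕ) (Z : Finset ℕ),
    (∀ N ∈ Z, N ∈ B ∧ 1 ≤ N ∧ N ≤ 2 ^ R) → ∑ N ∈ Z, (1 : ℝ) / N ≤ C + 2 * δ * (R + 1)

/-- DENSX: the main theorem. -/
def DensXStatement : Prop :=
  ∃ c : ℝ, 0 < c ∧ ∀ (d : Bool) (x : ℤ), ¬ (3 : ℤ) ∣ x →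
    0 < Pool.Agent.Lib.MP_0a5adf_nt.TP.sg d * x → ∀ D : ℝ,
    ND.HasDens d {n : ℤ | ∃ i : ℕ, Tc^[i] n = x} D → c / |(x : ℝ)| ≤ D

end Pool.Agent.Lib.MP_edb5be_nt.PD
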