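import Pool.Agent.Lib.MP_edb5be_nt.PD.Iface

/-!
Project PD (MP_edb5be_nt), second stage: the uniform count. Definitions and statements.
Proofs on paper: `Pool/Agent/Lib/MP_edb5be_nt/PD/Paper2.md`.
-/

set_option autoImplicit false

namespace Pool.Agent.Lib.MP_edb5be_nt.PD

open Finset Pool.Agent.Lib.MP_edb5be_nt.EX

/-- The words of length `m` with sum `b`. -/
def Bw (m b : ℕ) : Finset (List ℕ) := (wds b m).filter fun u => u.sum = b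

/-- The probability of the sum `b`. -/
noncomputable def Pb (m b : ℕ) : ℝ := pr (Bw m b)

/-- The density of the words of length `m` with sum `b`. -/
noncomputable def Gw (m b : ℕ) (z : ℤ) : ℝ := su (Bw m b) (fun _ => 1) z

/-- Its average over the classes modulo `3 ^ J`. -/
noncomputable def Ew (m b J : ℕ) (z : ℤ) : ℝ :=
  ∑ s ∈ range (b + 1), Pb (m - J) (b - s) * Gw J s z

/-- The integer part of `m log_2 3`. -/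
def lb (m : ℕ) : ℕ := Nat.log 2 (3 ^ m)

/-- The lengths of the words of weight about `2 ^ (-L)`. -/
def IL (L : ℕ) : Finset ℕ := (range (3 * L)).filter fun m => ((L : ℤ) + lb m - 2 * m) ^ 2 ≤ L

/-- The number of these words, divided by `2 ^ L`. -/
noncomputable def VL (L : ℕ) (z : ℤ) : ℝ :=
  ∑ m ∈ IL L, (((Bw m (L + lb m)).filter (Ad z)).card : ℝ) / 2 ^ L

/-- BWF: basic facts about `Bw`. -/
def BwFStatement : Prop :=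
  (∀ (m b : ℕ) (u : List ℕ), u ∈ Bw m b ↔ u.length = m ∧ (∀ a ∈ u, 1 ≤ a) ∧ u.sum = b) ∧
  (∀ m b : ℕ, 1 ≤ m → Pb m b = ND.bw (b - 1) (m - 1) / 2 ∨ b = 0 ∧ Pb m b = 0) ∧
  (∀ m b : ℕ, 0 ≤ Pb m b ∧ Pb m b ≤ 1) ∧
  (∀ m b : ℕ, Pb (m + 1) b = ∑ a ∈ Icc 1 b, 1 / 2 ^ a * Pb m (b - a)) ∧
  (∀ (J : ℕ) (z : ℤ), Fd J z = ∑ s ∈ range (4 * J + 1), Gw J s z)

/-- OSC: the oscillation of the last digit. -/
def OscStatement : Prop :=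
  ∀ A : ℕ, ∃ C : ℝ, 0 < C ∧ ∀ k b : ℕ, 1 ≤ k →
    ∑ s ∈ range (b + 1), ∑ z ∈ range (3 ^ k), |Gw k s z -
      (Gw k s z + Gw k s (z + 3 ^ (k - 1)) + Gw k s (z + 2 * 3 ^ (k - 1))) / 3| ≤
        C / k ^ A * 3 ^ k

/-- LIFT: the average over the last digit. -/
def LiftStatement : Prop :=
  ∀ (k s : ℕ) (z : ℤ),
    (Gw (k + 1) s z + Gw (k + 1) s (z + 3 ^ k) + Gw (k + 1) s (z + 2 * 3 ^ k)) / 3 =
      ∑ a ∈ Icc 1 s, 1 / 2 ^ a * Gw k (s - a) z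

/-- GMIX: mixing for the words with given length and sum. -/
def GMixStatement : Prop :=
  ∀ A : ℕ, ∃ C : ℝ, 0 < C ∧ ∀ m b J : ℕ, 1 ≤ J → J ≤ m →
    ∑ z ∈ range (3 ^ m), |Gw m b z - Ew m b J z| ≤ C / J ^ A * 3 ^ m

/-- PLOC: local lower bound. -/
def PLocStatement : Prop :=
  ∃ c : ℝ, 0 < c ∧ ∀ n b L : ℕ, 100 ≤ L → L ≤ n → b ≤ 10 * L → ((b : ℤ) - 2 * n) ^ 2 ≤ 4 * L →
    c / √L ≤ Pb n b

/-- WINDOW: many lengths. -/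
def WindowStatement : Prop :=
  (∀ m : ℕ, 2 ^ lb m ≤ 3 ^ m ∧ 3 ^ m < 2 ^ (lb m + 1) ∧ 1584 * m ≤ 1000 * lb m + 1000 ∧
    1000 * lb m ≤ 1585 * m) ∧
  ∀ L : ℕ, 100 ≤ L → √L ≤ ((IL L).card : ℝ) ∧ ∀ m ∈ IL L, 2 * L ≤ m ∧ m ≤ 3 * L

/-- EWLOW: the averages are bounded below by the density. -/
def EwLowStatement : Prop :=
  ∃ c : ℝ, 0 < c ∧ ∀ (L J m : ℕ) (z : ℤ), 100 ≤ L → 1 ≤ J → 16 * J ^ 2 ≤ L → m ∈ IL L →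
    c / √L * Fd J z ≤ Ew m (L + lb m) J z

/-- VLOW: lower bound for the number of words of weight about `2 ^ (-L)`. -/
def VLowStatement : Prop :=
  ∃ c : ℝ, 0 < c ∧ ∀ A : ℕ, ∃ C : ℝ, 0 < C ∧ ∀ L J : ℕ, 100 ≤ L → 1 ≤ J → 16 * J ^ 2 ≤ L →
    ∃ e : ℤ → ℝ, (∀ z, 0 ≤ e z) ∧ (∀ z, e (z + 3 ^ (3 * L)) = e z) ∧
      (∑ z ∈ range (3 ^ (3 * L)), e z) / 3 ^ (3 * L) ≤ C * L / J ^ A ∧
      ∀ z, c * Fd J z - e z ≤ VL L z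

/-- DENSB: as DENS, with functions depending on the sum. -/
def DensBStatement : Prop :=
  ∀ (Γ E : ℝ) (n J : ℕ) (W : Finset (List ℕ)) (f : ℕ → ℤ → ℝ) (y : ℤ), 0 ≤ Γ → 0 ≤ E →
    GW Γ n W → 4 * J ≤ n → (∀ b x, 0 ≤ f b x) → (∀ b x, f b (x + 3 ^ J) = f b x) →
    (∀ b : ℕ, 199 * n ≤ 100 * b → 100 * b ≤ 201 * n → (∑ x ∈ range (3 ^ J), f b x) / 3 ^ J ≤ E) →
    ∑ u ∈ W.filter (Ad y), wt u * f u.sum (zz y u) ≤ (Γ + 1) * (n + 1) ^ 2 * E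

/-- UCLASS: in the class, the number of the words of weight at least `2 ^ (-L)`. -/
def UClassStatement : Prop :=
  ∃ (Γ k : ℕ) (y₀ : ℤ) (c : ℝ), 0 < c ∧ ¬ (3 : ℤ) ∣ y₀ ∧ ∀ y : ℤ, (3 : ℤ) ^ k ∣ y - y₀ →
    ∀ L : ℕ, ∃ S : Finset (List ℕ), (∀ u ∈ S, (∀ a ∈ u, 1 ≤ a) ∧ Ad y u ∧
      2 ^ u.sum ≤ 2 ^ L * 3 ^ u.length ∧ cc u ≤ Γ * 2 ^ u.sum) ∧ c * 2 ^ L ≤ (S.card : ℝ)

/-- UCOUNT: the uniform count. -/
def UCountStatement : Prop :=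
  ∃ c : ℝ, 0 < c ∧ ∀ x : ℤ, ¬ (3 : ℤ) ∣ x → ∀ X : ℝ, |(x : ℝ)| ≤ X →
    c * (X / |(x : ℝ)|) ≤ ((Pre x X).ncard : ℝ)

end Pool.Agent.Lib.MP_edb5be_nt.PD
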