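import Pool.Agent.Lib.MP_edb5be_nt.PD.Iface2
import Pool.Agent.Lib.MP_edb5be_nt.PD.Iface3

/-!
Project PD (MP_edb5be_nt), fourth part: logarithmic time, sums over all cycles.
-/

set_option autoImplicit false

namespace Pool.Agent.Lib.MP_edb5be_nt.PD

open Finset Pool.Agent.Lib.MP_edb5be_nt.EX Pool.Agent.Lib.MP_0a5adf_nt.TP

/-- UCLASST: as UCLASS, with a bound for the sum of the words. -/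
def UClassTStatement : Prop :=
  ∃ (Γ k K : ℕ) (y₀ : ℤ) (c : ℝ), 0 < c ∧ ¬ (3 : ℤ) ∣ y₀ ∧ ∀ y : ℤ, (3 : ℤ) ^ k ∣ y - y₀ →
    ∀ L : ℕ, ∃ S : Finset (List ℕ), (∀ u ∈ S, (∀ a ∈ u, 1 ≤ a) ∧ Ad y u ∧
      2 ^ u.sum ≤ 2 ^ L * 3 ^ u.length ∧ cc u ≤ Γ * 2 ^ u.sum ∧ u.sum ≤ K * (L + 1)) ∧
      c * 2 ^ L ≤ (S.card : ℝ)

/-- UCOUNTT: the uniform count, in logarithmic time. -/
def UCountTStatement : Prop :=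
  ∃ c K : ℝ, 0 < c ∧ 0 < K ∧ ∀ x : ℤ, ¬ (3 : ℤ) ∣ x → ∀ X : ℝ, |(x : ℝ)| ≤ X →
    c * (X / |(x : ℝ)|) ≤ (({n : ℤ | |(n : ℝ)| ≤ X ∧
      ∃ k : ℕ, (k : ℝ) ≤ K * (Real.log (X / |(x : ℝ)|) + 1) ∧ Tc^[k] n = x}.ncard : ℕ) : ℝ)

open Classical in
/-- SUML: the linear forms of all the cycles. -/
def SumLStatement : Prop :=
  ∃ C : ℝ, 0 < C ∧ ∀ (X : Finset ℤ) (p : ℤ → ℕ),
    (∀ x ∈ X, x ≠ 0 ∧ 1 ≤ p x ∧ Tc^[p x] x = x ∧ ∀ i j, i < j → j < p x → Tc^[i] x ≠ Tc^[j] x) →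
    (∀ x ∈ X, ∀ x' ∈ X, x ≠ x' → ∀ i : ℕ, Tc^[i] x ≠ x') →
    ∑ x ∈ X, |p x * Real.log 2 -
      ((range (p x)).filter fun i => Tc^[i] x % 2 = 1).card * Real.log 3| ≤ C

end Pool.Agent.Lib.MP_edb5be_nt.PD
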